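import Pool.Agent.V5helper14.Sep.Stm
import Pool.Agent.V5helper14.Hel.Final

/-!
# Project SE, job BASE: the base example in dimension three
-/

set_option autoImplicit false

namespace Pool.Agent.V5helper72.SE

open Matrix Pool.Agent.V5helper14 Pool.Agent.V5helper14.Hel

section base

variable {m : ℕ}

/-- `sign_const` of helper14 with the additional information that the sign is not zero -/
theorem sign_const_ne (B : Set (Idx m)) (f : Fin 3 → Idx m) (hf : StrictMono f)
    (hB : ∀ i, f i ∈ B) : ∃ s : SignType, s ≠ 0 ∧ ∀ t, 0 ≤ t → t ≤ 2 →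
      (∀ j, Idx.S j 0 ∈ B → kap m < (t - cen m j) ^ 2 / 4) →
      SignType.sign (orient (fun i => pos0 m i t) f) = s := by
  have h01 : Idx.rank (f 0) < Idx.rank (f 1) := hf (by decide)
  have h12 : Idx.rank (f 1) < Idx.rank (f 2) := hf (by decide)
  have hB0 := hB 0
  rcases h0 : f 0 with _ | _ | ⟨j₀, c₀⟩
  · -- q0
    rcases h1 : f 1 with _ | _ | ⟨j₁, c₁⟩
    · rw [h0, h1] at h01; simp [Idx.rank] at h01
    · rcases h2 : f 2 with _ | _ | ⟨j₂, c₂⟩
      · rw [h1, h2] at h12; simp [Idx.rank] at h12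
      · rw [h1, h2] at h12; simp [Idx.rank] at h12
      · refine ⟨-1, by decide, fun t ht0 ht2 _ => ?_⟩
        have hx := xi_pos j₂ c₂ ht0 ht2
        rw [orient_two, h0, h1, h2]
        rw [sign_eq_neg_one_iff]
        simp only [pos0, Matrix.cons_val_zero, Matrix.cons_val_one]
        have : 0 < 1 / xi m j₂ c₂ t := by positivity
        linarith
    · rcases h2 : f 2 with _ | _ | ⟨j₂, c₂⟩
      · rw [h1, h2] at h12; simp [Idx.rank] at h12
      · rw [h1, h2] at h12; simp [Idx.rank] at h12
      · refine ⟨1, by decide, fun t ht0 ht2 _ => ?_⟩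
        have hx1 := xi_pos j₁ c₁ ht0 ht2
        have hx2 := xi_pos j₂ c₂ ht0 ht2
        rw [orient_two, h0, h1, h2]
        rw [sign_eq_one_iff]
        simp only [pos0, Matrix.cons_val_zero, Matrix.cons_val_one]
        have hlt : (j₁ : ℕ) < j₂ ∨ (j₁ = j₂ ∧ (c₁ : ℕ) < c₂) := by
          rw [h1, h2] at h12
          simp only [Idx.rank] at h12
          by_cases hj : (j₁ : ℕ) = j₂
          · right; exact ⟨Fin.ext hj, by omega⟩
          · left; omega
        have hs := sg_lt hlt ht0 ht2
        have : (1 / xi m j₁ c₁ t * (sg m j₂ c₂ t / xi m j₂ c₂ t)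
            - sg m j₁ c₁ t / xi m j₁ c₁ t * (1 / xi m j₂ c₂ t))
            - (0 * (sg m j₂ c₂ t / xi m j₂ c₂ t) - 0 * (1 / xi m j₂ c₂ t))
            + (0 * (sg m j₁ c₁ t / xi m j₁ c₁ t) - 0 * (1 / xi m j₁ c₁ t))
            = (sg m j₂ c₂ t - sg m j₁ c₁ t) / (xi m j₁ c₁ t * xi m j₂ c₂ t) := by
          field_simp
          ring
        rw [this]
        positivity
  · -- q1
    rcases h1 : f 1 with _ | _ | ⟨j₁, c₁⟩
    · rw [h0, h1] at h01; simp [Idx.rank] at h01
    · rw [h0, h1] at h01; simp [Idx.rank] at h01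
    · rcases h2 : f 2 with _ | _ | ⟨j₂, c₂⟩
      · rw [h1, h2] at h12; simp [Idx.rank] at h12
      · rw [h1, h2] at h12; simp [Idx.rank] at h12
      · refine ⟨1, by decide, fun t ht0 ht2 _ => ?_⟩
        have hx1 := xi_pos j₁ c₁ ht0 ht2
        have hx2 := xi_pos j₂ c₂ ht0 ht2
        rw [orient_two, h0, h1, h2]
        rw [sign_eq_one_iff]
        simp only [pos0, Matrix.cons_val_zero, Matrix.cons_val_one]
        have hlt : (j₁ : ℕ) < j₂ ∨ (j₁ = j₂ ∧ (c₁ : ℕ) < c₂) := by
          rw [h1, h2] at h12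
          simp only [Idx.rank] at h12
          by_cases hj : (j₁ : ℕ) = j₂
          · right; exact ⟨Fin.ext hj, by omega⟩
          · left; omega
        have hs := sgxi_lt hlt ht0 ht2
        have : (1 / xi m j₁ c₁ t * (sg m j₂ c₂ t / xi m j₂ c₂ t)
            - sg m j₁ c₁ t / xi m j₁ c₁ t * (1 / xi m j₂ c₂ t))
            - (0 * (sg m j₂ c₂ t / xi m j₂ c₂ t) - 1 * (1 / xi m j₂ c₂ t))
            + (0 * (sg m j₁ c₁ t / xi m j₁ c₁ t) - 1 * (1 / xi m j₁ c₁ t))
            = ((sg m j₂ c₂ t - xi m j₂ c₂ t) - (sg m j₁ c₁ t - xi m j₁ c₁ t)) /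
              (xi m j₁ c₁ t * xi m j₂ c₂ t) := by
          field_simp
          ring
        rw [this]
        positivity
  · -- all three are segments
    rcases h1 : f 1 with _ | _ | ⟨j₁, c₁⟩
    · rw [h0, h1] at h01; simp [Idx.rank] at h01
    · rw [h0, h1] at h01; simp [Idx.rank] at h01
    · rcases h2 : f 2 with _ | _ | ⟨j₂, c₂⟩
      · rw [h1, h2] at h12; simp [Idx.rank] at h12
      · rw [h1, h2] at h12; simp [Idx.rank] at h12
      · have hkey : ∀ t, 0 ≤ t → t ≤ 2 → orient (fun i => pos0 m i t) f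
            = - (E m j₀ c₀ j₁ c₁ j₂ c₂ t) / (xi m j₀ c₀ t * xi m j₁ c₁ t * xi m j₂ c₂ t) := by
          intro t ht0 ht2
          have hx0 := xi_pos j₀ c₀ ht0 ht2
          have hx1 := xi_pos j₁ c₁ ht0 ht2
          have hx2 := xi_pos j₂ c₂ ht0 ht2
          rw [orient_two, h0, h1, h2]
          simp only [pos0, Matrix.cons_val_zero, Matrix.cons_val_one, E]
          field_simp
          ring
        have hden : ∀ t, 0 ≤ t → t ≤ 2 →
            0 < xi m j₀ c₀ t * xi m j₁ c₁ t * xi m j₂ c₂ t := by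
          intro t ht0 ht2
          have hx0 := xi_pos j₀ c₀ ht0 ht2
          have hx1 := xi_pos j₁ c₁ ht0 ht2
          have hx2 := xi_pos j₂ c₂ ht0 ht2
          positivity
        have hneg : ∀ t, 0 ≤ t → t ≤ 2 → 0 < E m j₀ c₀ j₁ c₁ j₂ c₂ t →
            SignType.sign (orient (fun i => pos0 m i t) f) = -1 := by
          intro t ht0 ht2 hE
          rw [hkey t ht0 ht2, sign_eq_neg_one_iff]
          exact div_neg_of_neg_of_pos (by linarith) (hden t ht0 ht2)
        have hpos : ∀ t, 0 ≤ t → t ≤ 2 → E m j₀ c₀ j₁ c₁ j₂ c₂ t < 0 →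
            SignType.sign (orient (fun i => pos0 m i t) f) = 1 := by
          intro t ht0 ht2 hE
          rw [hkey t ht0 ht2, sign_eq_one_iff]
          exact div_pos (by linarith) (hden t ht0 ht2)
        rw [h0, h1] at h01
        rw [h1, h2] at h12
        simp only [Idx.rank] at h01 h12
        by_cases hj01 : (j₀ : ℕ) = j₁
        · obtain rfl : j₀ = j₁ := Fin.ext hj01
          by_cases hj12 : (j₀ : ℕ) = j₂
          · obtain rfl : j₀ = j₂ := Fin.ext hj12
            have hc0 : c₀ = 0 := Fin.ext (by show (c₀ : ℕ) = 0; omega)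
            have hc1 : c₁ = 1 := Fin.ext (by show (c₁ : ℕ) = 1; omega)
            have hc2 : c₂ = 2 := Fin.ext (by show (c₂ : ℕ) = 2; omega)
            subst hc0 hc1 hc2
            refine ⟨1, by decide, fun t ht0 ht2 hC => hpos t ht0 ht2 ?_⟩
            rw [E_special]
            have := hC j₀ (h0 ▸ hB0)
            have he := eta_pos m
            apply mul_neg_of_pos_of_neg <;> linarith
          · refine ⟨1, by decide, fun t ht0 ht2 hC => hpos t ht0 ht2 ?_⟩
            exact E_left (by omega) (by omega) ht0 ht2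
        · by_cases hj12 : (j₁ : ℕ) = j₂
          · obtain rfl : j₁ = j₂ := Fin.ext hj12
            refine ⟨-1, by decide, fun t ht0 ht2 hC => hneg t ht0 ht2 ?_⟩
            exact E_right (by omega) (by omega) ht0 ht2
          · refine ⟨-1, by decide, fun t ht0 ht2 hC => hneg t ht0 ht2 ?_⟩
            exact E_distinct (by omega) (by omega) ht0 ht2

theorem orient_ne_mono (f : Fin 3 → Idx m) (hf : StrictMono f) :
    Hel.orient (fun i => pos0 m i 2) f ≠ 0 := by
  obtain ⟨s, hs0, hs⟩ := sign_const_ne Set.univ f hf (fun _ => Set.mem_univ _)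
  have h1 := hs 2 (by norm_num) le_rfl (fun j _ => cond_two j)
  intro h2
  rw [h2, sign_zero] at h1
  exact hs0 h1.symm

theorem orient_ne_inj (f : Fin 3 → Idx m) (hf : Function.Injective f) :
    Hel.orient (fun i => pos0 m i 2) f ≠ 0 := by
  have hmono : StrictMono (f ∘ Tuple.sort f) :=
    (Tuple.monotone_sort f).strictMono_of_injective (hf.comp (Tuple.sort f).injective)
  have h1 := orient_ne_mono _ hmono
  rw [orient_perm] at h1
  exact right_ne_zero_of_mul h1

end base

/-- **Job BASE.** -/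
theorem t_BASE : Sep.S_BASE := by
  intro h
  let e := Hel.exBase h
  have := e.fin
  let s : e.ι ≃ Fin (Fintype.card e.ι) := Fintype.equivFin e.ι
  refine ⟨Fintype.card e.ι, fun i => Hel.sgm e.pos (s.symm i), fun i => e.pos (s.symm i) 2,
    ?_, ?_, ?_, ?_, ?_⟩
  · intro i
    exact ⟨_, _, rfl⟩
  · intro f hf x hx
    have hne : x 0 ≠ x 1 := by
      intro heq
      have hij : f 0 ≠ f 1 := fun h => by
        have := hf h
        exact absurd this (by decide)
      have hd := e.disj (s.symm (f 0)) (s.symm (f 1)) (fun h => hij (s.symm.injective h))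
      have h0 := hx 0
      have h1 := hx 1
      rw [← heq] at h1
      exact Set.disjoint_left.mp hd h0 h1
    have h2 := affineIndependent_of_ne ℝ hne
    have h3 : x = ![x 0, x 1] := by
      funext i
      fin_cases i <;> rfl
    rw [h3]
    exact h2
  · intro f hf
    exact orient_ne_inj (fun i => s.symm (f i)) (s.symm.injective.comp hf.injective)
  · intro B hB
    obtain ⟨t, ht0, ht1, ht⟩ := e.few (B.map s.symm.toEmbedding) (by rwa [Finset.card_map])
    refine ⟨Hel.par 1 t, Hel.par_injective _ _, fun i => e.pos (s.symm i) t, ?_, ?_⟩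
    · intro i _
      exact e.seg (s.symm i) t ht0 ht1
    · intro f _ hf
      have := ht (fun i => s.symm (f i)) (fun i => by
        rw [Finset.mem_coe, Finset.mem_map]
        exact ⟨f i, hf i, rfl⟩)
      rw [one_mul] at this
      exact this
  · rintro ⟨φ, -, x, hx, hord⟩
    obtain ⟨N, hN, c, hc⟩ := Hel.exists_normal φ
    obtain ⟨t, ht0, ht1, ht⟩ := e.plane N c hN (fun j => φ (x (s j)))
      (fun j => by
        have h1 : φ (x (s j)) ∈ Hel.sgm e.pos (s.symm (s j)) := hx (s j) (Finset.mem_univ _)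
        rwa [Equiv.symm_apply_apply] at h1)
      (fun j => hc _)
    let τ : (Fin 3 → ℝ) →ₗ[ℝ] (Fin 2 → ℝ) := LinearMap.funLeft ℝ ℝ Fin.succ
    let ψ : (Fin 2 → ℝ) →ᵃ[ℝ] (Fin 2 → ℝ) := τ.toAffineMap.comp φ
    obtain ⟨D, hD⟩ := Hel.orient_affine ψ
    have hψ : ∀ j, ψ (x (s j)) = e.pos j t := by
      intro j
      have h1 : φ (x (s j)) = Hel.pt e.pos j t := ht j
      show τ (φ (x (s j))) = _
      rw [h1]
      ext i
      rfl
    have hag : Hel.Agree 1 x (fun i => e.pos (s.symm i) 2) Set.univ := by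
      apply Hel.agree_of_strictMono
      intro f hf _
      rw [one_mul]
      exact hord f hf (fun i => Finset.mem_univ _)
    apply e.all t ht0 ht1 (SignType.sign D)
    intro f _
    have h1 : Hel.orient (fun j => e.pos j t) f = D * Hel.orient (fun j => x (s j)) f := by
      rw [← hD]
      congr 1
      funext j
      exact (hψ j).symm
    have h2 := hag (fun i => s (f i)) (fun _ => Set.mem_univ _)
    rw [one_mul] at h2
    have h3 : Hel.orient (fun i => e.pos (s.symm i) 2) (fun i => s (f i)) =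
        Hel.orient (fun j => e.pos j 2) f := by
      unfold Hel.orient
      simp only [Equiv.symm_apply_apply]
    rw [h1, sign_mul]
    congr 1
    rw [← h3, ← h2]
    rfl

end Pool.Agent.V5helper72.SE
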